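import Mathlib

set_option autoImplicit false

namespace Pool.Agent.KS6_69.RN
open scoped commutatorElement

def s (n : ℤ) : ℤ := if Even n then 1 else -1

theorem s_add (a b : ℤ) : s (a + b) = s a * s b := by
  unfold s
  by_cases ha : Even a <;> by_cases hb : Even b <;> simp [ha, hb, Int.even_add]
theorem s_neg (a : ℤ) : s (-a) = s a := by simp [s]
theorem s_zero : s 0 = 1 := by simp [s]
theorem s_one : s 1 = -1 := by simp [s]
theorem s_two (c : ℤ) : s (2 * c) = 1 := by simp [s]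
theorem s_cases (a : ℤ) : s a = 1 ∨ s a = -1 := by unfold s; split_ifs <;> simp
theorem s_sq (a : ℤ) : s a * s a = 1 := by rcases s_cases a with h | h <;> simp [h]

theorem dv {a b c : ℤ} (h : a ∣ b) (e : b = c) : a ∣ c := e ▸ h

noncomputable def tw (v u : ℕ →₀ ℤ) : ℕ →₀ ℤ :=
  Finsupp.onFinset u.support (fun k => s (v k) * u k) fun k hk => by
    rw [Finsupp.mem_support_iff]; intro h; simp [h] at hk

@[simp] theorem tw_apply (v u : ℕ →₀ ℤ) (k : ℕ) : tw v u k = s (v k) * u k := rfl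

@[ext] structure H where
  u : ℕ →₀ ℤ
  v : ℕ →₀ ℤ

noncomputable instance : Mul H := ⟨fun a b => ⟨a.u + tw a.v b.u, a.v + b.v⟩⟩
noncomputable instance : One H := ⟨⟨0, 0⟩⟩
noncomputable instance : Inv H := ⟨fun a => ⟨-tw a.v a.u, -a.v⟩⟩

@[simp] theorem mul_u (a b : H) (k : ℕ) : (a * b).u k = a.u k + s (a.v k) * b.u k := rfl
@[simp] theorem mul_v (a b : H) : (a * b).v = a.v + b.v := rfl
@[simp] theorem one_u : (1 : H).u = 0 := rfl
@[simp] theorem one_v : (1 : H).v = 0 := rfl
@[simp] theorem inv_u (a : H) (k : ℕ) : (a⁻¹).u k = -(s (a.v k) * a.u k) := rfl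
@[simp] theorem inv_v (a : H) : (a⁻¹).v = -a.v := rfl

noncomputable instance : Group H := Group.ofLeftAxioms
  (fun a b c => by
    ext k
    · simp [s_add]; ring
    · simp [add_assoc])
  (fun a => by ext k <;> simp [s_zero])
  (fun a => by ext k <;> simp [s_neg])

theorem comm_u (a b : H) (k : ℕ) :
    (⁅a, b⁆).u k = (1 - s (b.v k)) * a.u k - (1 - s (a.v k)) * b.u k := by
  simp only [commutatorElement_def, mul_u, mul_v, inv_u, inv_v, Finsupp.add_apply,
    Finsupp.neg_apply, s_add, s_neg]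
  rcases s_cases (a.v k) with h | h <;> rcases s_cases (b.v k) with h' | h' <;>
    simp only [h, h'] <;> ring
theorem comm_v (a b : H) : (⁅a, b⁆).v = 0 := by
  simp [commutatorElement_def]
theorem conj_u (a b : H) (k : ℕ) (h : s (a.v k) = 1) :
    (b * a * b⁻¹).u k = s (b.v k) * a.u k := by
  simp only [mul_u, mul_v, inv_u, Finsupp.add_apply, s_add, h]
  rcases s_cases (b.v k) with h' | h' <;> simp only [h'] <;> ring
theorem two_dvd (a : ℤ) : (2 : ℤ) ∣ 1 - s a := by
  rcases s_cases a with h | h <;> simp [h]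

def V : Subgroup H where
  carrier := {h | ∀ k, ∃ c, h.v k = 2 * c ∧ 2 ^ (k + 1) ∣ h.u k + 2 ^ k * c}
  one_mem' := fun k => ⟨0, by simp⟩
  mul_mem' := by
    intro a b ha hb k
    obtain ⟨c, h1, h2⟩ := ha k
    obtain ⟨d, h3, h4⟩ := hb k
    refine ⟨c + d, by simp [h1, h3, mul_add], ?_⟩
    rw [mul_u, h1, s_two]
    exact dv (dvd_add h2 h4) (by ring)
  inv_mem' := by
    intro a ha k
    obtain ⟨c, h1, h2⟩ := ha k
    refine ⟨-c, by simp [h1], ?_⟩
    rw [inv_u, h1, s_two]
    exact dv h2.neg_right (by ring)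

instance : V.Normal := ⟨by
  intro a ha b k
  obtain ⟨c, h1, h2⟩ := ha k
  refine ⟨c, by simp [h1], ?_⟩
  rw [conj_u _ _ _ (by rw [h1, s_two])]
  rcases s_cases (b.v k) with h | h <;> rw [h]
  · simpa using h2
  · exact dv (dvd_add h2.neg_right (Dvd.intro c rfl)) (by ring)⟩

def Gam (e : ℕ → ℕ) : Subgroup H where
  carrier := {h | h.v = 0 ∧ ∀ k, 2 ^ e k ∣ h.u k}
  one_mem' := ⟨rfl, by simp⟩
  mul_mem' := by
    rintro a b ⟨h1, h2⟩ ⟨h3, h4⟩
    exact ⟨by simp [h1, h3], fun k => dvd_add (h2 k) ((h4 k).mul_left _)⟩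
  inv_mem' := by
    rintro a ⟨h1, h2⟩
    exact ⟨by simp [h1], fun k => ((h2 k).mul_left _).neg_right⟩

instance (e : ℕ → ℕ) : (Gam e).Normal := ⟨by
  rintro a ⟨h1, h2⟩ b
  refine ⟨by simp [h1], fun k => ?_⟩
  rw [conj_u _ _ _ (by simp [h1, s_zero])]
  exact (h2 k).mul_left _⟩

def W : Subgroup H where
  carrier := {h | ∀ k, (4 : ℤ) ∣ h.v k ∧ 2 ^ (k + 1) ∣ h.u k}
  one_mem' := fun k => by simp
  mul_mem' := by
    intro a b ha hb k
    exact ⟨by simpa using dvd_add (ha k).1 (hb k).1, dvd_add (ha k).2 ((hb k).2.mul_left _)⟩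
  inv_mem' := by
    intro a ha k
    exact ⟨by simpa using (ha k).1, ((ha k).2.mul_left _).neg_right⟩

theorem s_W {a : H} (ha : a ∈ W) (k : ℕ) : s (a.v k) = 1 := by
  obtain ⟨c, hc⟩ := (ha k).1
  rw [hc, show (4 : ℤ) * c = 2 * (2 * c) by ring, s_two]

instance : W.Normal := ⟨by
  intro a ha b k
  refine ⟨by simpa using (ha k).1, ?_⟩
  rw [conj_u _ _ _ (s_W ha k)]
  exact (ha k).2.mul_left _⟩

noncomputable def ψ : (ℕ →₀ ℤ) →ₗ[ℤ] ℚ := Finsupp.linearCombination ℤ fun k => 1 / 2 ^ (k + 2)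

theorem ψ_int (u : ℕ →₀ ℤ) (h : ∀ k, 2 ^ (k + 2) ∣ u k) : ∃ m : ℤ, ψ u = m := by
  choose c hc using h
  refine ⟨∑ k ∈ u.support, c k, ?_⟩
  rw [ψ, Finsupp.linearCombination_apply, Finsupp.sum]
  push_cast
  refine Finset.sum_congr rfl fun k _ => ?_
  rw [hc k, zsmul_eq_mul]
  push_cast
  field_simp

def W0 : Subgroup H where
  carrier := {h | h ∈ W ∧ ∃ m : ℤ, ψ h.u = m}
  one_mem' := ⟨W.one_mem, 0, by simp⟩
  mul_mem' := by
    rintro a b ⟨h1, m, h2⟩ ⟨h3, n, h4⟩
    refine ⟨W.mul_mem h1 h3, m + n, ?_⟩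
    have : (a * b).u = a.u + b.u := by ext k; simp [s_W h1]
    rw [this, map_add, h2, h4]; simp
  inv_mem' := by
    rintro a ⟨h1, m, h2⟩
    refine ⟨W.inv_mem h1, -m, ?_⟩
    have : (a⁻¹).u = -a.u := by ext k; simp [s_W h1]
    rw [this, map_neg, h2]; simp

theorem comm_W (a : H) (ha : a ∈ W) (b : H) : ⁅a, b⁆ ∈ W0 := by
  have : ∀ k, 2 ^ (k + 2) ∣ (⁅a, b⁆).u k := by
    intro k
    rw [comm_u, s_W ha, sub_self, zero_mul, sub_zero, pow_succ']
    exact mul_dvd_mul (two_dvd _) (ha k).2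
  exact ⟨fun k => ⟨by simp [comm_v], (pow_dvd_pow 2 (Nat.le_succ (k + 1))).trans (this k)⟩,
    ψ_int _ this⟩

theorem comm_V (a : H) (ha : a ∈ V) (b : H) : ⁅a, b⁆ ∈ W := by
  intro k
  refine ⟨by simp [comm_v], ?_⟩
  obtain ⟨c, h1, h2⟩ := ha k
  rw [comm_u, h1, s_two, sub_self, zero_mul, sub_zero, pow_succ']
  refine mul_dvd_mul (two_dvd _) ?_
  exact (dvd_add_left (Dvd.intro c rfl)).1 ((pow_dvd_pow 2 (by omega)).trans h2)

instance : W0.Normal := ⟨by
  intro a ha b
  have := W0.mul_mem (W0.inv_mem (comm_W a ha.1 b)) ha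
  convert this using 1
  simp [commutatorElement_def, mul_assoc]⟩

theorem W_le_V : W ≤ V := fun a ha k => by
  obtain ⟨⟨c, hc⟩, h⟩ := ha k
  exact ⟨2 * c, by rw [hc]; ring, dv (dvd_add h (Dvd.intro c rfl)) (by ring)⟩

theorem central_of (A B : Subgroup H) [A.Normal] [B.Normal] (hle : A ≤ B.comap (MonoidHom.id H))
    (hc : ∀ h ∈ B, ∀ g, ⁅h, g⁆ ∈ A) :
    Function.Surjective (QuotientGroup.map A B (MonoidHom.id H) hle) ∧
      (QuotientGroup.map A B (MonoidHom.id H) hle).ker ≤ Subgroup.center _ := by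
  constructor
  · intro y
    obtain ⟨g, rfl⟩ := QuotientGroup.mk_surjective y
    exact ⟨g, rfl⟩
  · intro x hx
    obtain ⟨h, rfl⟩ := QuotientGroup.mk_surjective x
    have hB : h ∈ B := (QuotientGroup.eq_one_iff h).1 hx
    rw [Subgroup.mem_center_iff]
    intro y
    obtain ⟨g, rfl⟩ := QuotientGroup.mk_surjective y
    rw [← QuotientGroup.mk_mul, ← QuotientGroup.mk_mul, QuotientGroup.eq]
    convert hc h⁻¹ (B.inv_mem hB) g⁻¹ using 1
    simp [commutatorElement_def, mul_assoc]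

noncomputable def xx (u : ℕ →₀ ℤ) : H := ⟨u, 0⟩
noncomputable def yy (v : ℕ →₀ ℤ) : H := ⟨0, v⟩

theorem xx_add (a b : ℕ →₀ ℤ) : xx (a + b) = xx a * xx b := by ext k <;> simp [xx, s_zero]
theorem yy_add (a b : ℕ →₀ ℤ) : yy (a + b) = yy a * yy b := by ext k <;> simp [yy]
noncomputable def xh : Multiplicative (ℕ →₀ ℤ) →* H :=
  MonoidHom.mk' (fun a => xx a.toAdd) fun _ _ => xx_add _ _
noncomputable def yh : Multiplicative (ℕ →₀ ℤ) →* H :=
  MonoidHom.mk' (fun a => yy a.toAdd) fun _ _ => yy_add _ _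
theorem xx_zsmul (a : ℕ →₀ ℤ) (n : ℤ) : xx (n • a) = xx a ^ n :=
  map_zpow xh (Multiplicative.ofAdd a) n
theorem yy_zsmul (a : ℕ →₀ ℤ) (n : ℤ) : yy (n • a) = yy a ^ n :=
  map_zpow yh (Multiplicative.ofAdd a) n

theorem gen (S : Subgroup H) (hx : ∀ k, xx (Finsupp.single k 1) ∈ S)
    (hy : ∀ k, yy (Finsupp.single k 1) ∈ S) (h : H) : h ∈ S := by
  have h1 : ∀ u, xx u ∈ S := by
    intro u
    induction u using Finsupp.induction_linear with
    | zero => exact S.one_mem
    | add a b ha hb => rw [xx_add]; exact S.mul_mem ha hb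
    | single k n =>
      rw [show Finsupp.single k n = n • Finsupp.single k (1 : ℤ) by simp, xx_zsmul]
      exact S.zpow_mem (hx k) n
  have h2 : ∀ u, yy u ∈ S := by
    intro u
    induction u using Finsupp.induction_linear with
    | zero => exact S.one_mem
    | add a b ha hb => rw [yy_add]; exact S.mul_mem ha hb
    | single k n =>
      rw [show Finsupp.single k n = n • Finsupp.single k (1 : ℤ) by simp, yy_zsmul]
      exact S.zpow_mem (hy k) n
  have : h = xx h.u * yy h.v := by ext k <;> simp [xx, yy]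
  rw [this]
  exact S.mul_mem (h1 _) (h2 _)

theorem lcs_le (n : ℕ) : (⊤ : Subgroup H).lowerCentralSeries (n + 1) ≤ Gam fun _ => n + 1 := by
  induction n with
  | zero =>
    rw [Subgroup.lowerCentralSeries_succ, Subgroup.commutator_le]
    intro a _ b _
    refine ⟨comm_v _ _, fun k => ?_⟩
    rw [comm_u]
    simpa using dvd_sub ((two_dvd _).mul_right _) ((two_dvd _).mul_right _)
  | succ n ih =>
    rw [Subgroup.lowerCentralSeries_succ, Subgroup.commutator_le]
    intro a ha b _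
    refine ⟨comm_v _ _, fun k => ?_⟩
    rw [comm_u, (ih ha).1, Finsupp.zero_apply, s_zero, sub_self, zero_mul, sub_zero, pow_succ']
    exact mul_dvd_mul (two_dvd _) ((ih ha).2 k)

theorem mem_lcs (k n : ℕ) :
    xx (Finsupp.single k (2 ^ n)) ∈ (⊤ : Subgroup H).lowerCentralSeries n := by
  induction n with
  | zero => trivial
  | succ n ih =>
    have : xx (Finsupp.single k (2 ^ (n + 1))) =
        ⁅xx (Finsupp.single k (2 ^ n)), yy (Finsupp.single k 1)⁆ := by
      ext j
      · rw [comm_u]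
        by_cases h : k = j
        · subst h; simp [xx, yy, s_one]; ring
        · simp [xx, yy, h]
      · rw [comm_v]; rfl
    rw [this]
    exact Subgroup.commutator_mem_commutator ih trivial

theorem lcs_map {A B : Type*} [Group A] [Group B] (f : A →* B) (hf : Function.Surjective f)
    (n : ℕ) : ((⊤ : Subgroup A).lowerCentralSeries n).map f =
      (⊤ : Subgroup B).lowerCentralSeries n := by
  rw [Subgroup.map_lowerCentralSeries, Subgroup.map_top_of_surjective f hf]

theorem not_resnil : (QuotientGroup.mk (xx (Finsupp.single 0 2)) : H ⧸ W0) ≠ 1 ∧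
    ∀ (K : Type) (_ : Group K) (φ : (H ⧸ W0) →* K), Group.IsNilpotent K →
      φ (QuotientGroup.mk (xx (Finsupp.single 0 2))) = 1 := by
  constructor
  · intro h
    obtain ⟨-, m, hm⟩ := (QuotientGroup.eq_one_iff _).1 h
    simp only [xx, ψ, Finsupp.linearCombination_single] at hm
    have : (1 : ℚ) = 2 * m := by rw [← hm]; norm_num
    have : (1 : ℤ) = 2 * m := by exact_mod_cast this
    omega
  · intro K _ φ hK
    obtain ⟨n, hn⟩ := Subgroup.nilpotent_iff_lowerCentralSeries.1 hK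
    have e : (QuotientGroup.mk (xx (Finsupp.single 0 2)) : H ⧸ W0) =
        QuotientGroup.mk (xx (Finsupp.single n (2 ^ (n + 1)))) := by
      rw [QuotientGroup.eq]
      have : (xx (Finsupp.single 0 2))⁻¹ * xx (Finsupp.single n (2 ^ (n + 1))) =
          xx (Finsupp.single n (2 ^ (n + 1)) - Finsupp.single 0 2) := by
        ext k
        · simp [xx, s_zero]; ring
        · simp [xx]
      rw [this]
      refine ⟨fun k => ⟨by simp [xx], ?_⟩, 0, ?_⟩
      · simp only [xx, Finsupp.sub_apply, Finsupp.single_apply]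
        refine dvd_sub ?_ ?_ <;> split_ifs with h <;> first | exact dvd_zero _ | simp [← h]
      · simp only [xx, ψ, map_sub, Finsupp.linearCombination_single, zsmul_eq_mul]
        push_cast
        field_simp
        ring
    rw [e]
    have h1 := Subgroup.mem_map_of_mem (φ.comp (QuotientGroup.mk' W0))
      (Subgroup.lowerCentralSeries_antitone _ (Nat.le_succ n) (mem_lcs n (n + 1)))
    rw [Subgroup.map_lowerCentralSeries] at h1
    have h2 : _ ∈ (⊤ : Subgroup K).lowerCentralSeries n := Subgroup.lowerCentralSeries_mono n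
      (le_top : Subgroup.map (φ.comp (QuotientGroup.mk' W0)) ⊤ ≤ ⊤) h1
    rw [hn] at h2
    exact h2

theorem resnil_G (g : H ⧸ V) (hg : ∀ n, g ∈ (⊤ : Subgroup (H ⧸ V)).lowerCentralSeries n) :
    g = 1 := by
  obtain ⟨h, rfl⟩ := QuotientGroup.mk_surjective g
  rw [QuotientGroup.eq_one_iff]
  intro k
  have := hg (k + 1)
  rw [← lcs_map (QuotientGroup.mk' V) (QuotientGroup.mk'_surjective V)] at this
  obtain ⟨a, ha, e⟩ := this
  have ha' := lcs_le k ha
  obtain ⟨c, h1, h2⟩ := (QuotientGroup.eq.1 e) k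
  simp only [mul_v, inv_v, ha'.1, neg_zero, zero_add, mul_u, inv_u, Finsupp.zero_apply, s_zero,
    one_mul] at h1 h2
  refine ⟨c, h1, ?_⟩
  exact dv (dvd_add h2 (ha'.2 k)) (by ring)

theorem key {E : Type*} [Group E] (f : E →* H ⧸ V) (hf : Function.Surjective f)
    (hc : f.ker ≤ Subgroup.center E) (g : E)
    (hg : g ∈ (⊤ : Subgroup E).lowerCentralSeries 2) (h1 : f g = 1) : g = 1 := by
  choose X hX using fun k => hf (QuotientGroup.mk (xx (Finsupp.single k 1)))
  choose Y hY using fun k => hf (QuotientGroup.mk (yy (Finsupp.single k 1)))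
  have cen : ∀ a, f a = 1 → ∀ b, b * a = a * b := fun a ha b =>
    Subgroup.mem_center_iff.1 (hc ha) b
  have genE : ∀ S : Subgroup E, f.ker ≤ S → (∀ k, X k ∈ S) → (∀ k, Y k ∈ S) → ∀ e, e ∈ S := by
    intro S h0 hx hy e
    obtain ⟨h, hh⟩ := QuotientGroup.mk_surjective (f e)
    obtain ⟨e', he', h'⟩ := gen ((S.map f).comap (QuotientGroup.mk' V))
      (fun k => ⟨X k, hx k, hX k⟩) (fun k => ⟨Y k, hy k, hY k⟩) h
    have : e'⁻¹ * e ∈ f.ker := by
      rw [MonoidHom.mem_ker, map_mul, map_inv, h', ← hh]; simp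
    simpa using S.mul_mem he' (h0 this)
  let U : ℕ → E := fun k => ⁅X k, Y k⁆
  have fU : ∀ k, f (U k) = QuotientGroup.mk (xx (Finsupp.single k 2)) := by
    intro k
    simp only [U, map_commutatorElement, hX, hY]
    rw [← QuotientGroup.mk'_apply, ← QuotientGroup.mk'_apply, ← map_commutatorElement,
      QuotientGroup.mk'_apply]
    congr 1
    ext j
    · rw [comm_u]
      by_cases h : k = j
      · subst h; simp [xx, yy, s_one]
      · simp [xx, yy, h]
    · rw [comm_v]; rfl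
  have own : ∀ k, X k * U k * (X k)⁻¹ = U k ∧ Y k * U k * (Y k)⁻¹ = (U k)⁻¹ ∧ U k ^ 2 ^ k = 1 := by
    intro k
    obtain ⟨a, ha, hU⟩ : ∃ a, f a = 1 ∧ U k = a * X k ^ 2 := by
      refine ⟨U k * (X k ^ 2)⁻¹, ?_, by simp⟩
      rw [map_mul, map_inv, map_pow, fU, hX, ← QuotientGroup.mk_pow, ← zpow_natCast, ← xx_zsmul]
      simp
    obtain ⟨b, hb, hb'⟩ : ∃ b, f b = 1 ∧ X k ^ 2 ^ k = b * Y k ^ 2 := by
      refine ⟨X k ^ 2 ^ k * (Y k ^ 2)⁻¹, ?_, by simp⟩
      rw [map_mul, map_inv, map_pow, map_pow, hX, hY, mul_inv_eq_one, ← QuotientGroup.mk_pow,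
        ← QuotientGroup.mk_pow, ← zpow_natCast, ← zpow_natCast, ← xx_zsmul, ← yy_zsmul,
        QuotientGroup.eq]
      intro j
      by_cases h : k = j
      · subst h; exact ⟨1, by simp [xx, yy], by simp [xx, yy, s_zero]⟩
      · exact ⟨0, by simp [xx, yy, h], by simp [xx, yy, h]⟩
    have ca : ∀ e, Commute a e := fun e => (cen a ha e).symm
    have e1 : Y k * (X k)⁻¹ * (Y k)⁻¹ = a * X k := by
      have : X k * (Y k * (X k)⁻¹ * (Y k)⁻¹) = X k * (a * X k) := by
        rw [← mul_assoc (X k) a, cen a ha, mul_assoc a, ← sq, ← hU]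
        simp [U, commutatorElement_def, mul_assoc]
      exact mul_left_cancel this
    have e2 : Y k * X k * (Y k)⁻¹ = (a * X k)⁻¹ := by rw [← e1]; group
    refine ⟨?_, ?_, ?_⟩
    · rw [hU, ← mul_assoc, cen a ha]; group
    · calc Y k * U k * (Y k)⁻¹ = a * (Y k * X k * (Y k)⁻¹) ^ 2 := by
            rw [hU, ← mul_assoc, cen a ha, conj_pow]; group
        _ = (U k)⁻¹ := by
            rw [e2, hU, inv_pow, (ca _).mul_pow, (ca _).eq]
            group
    · have e3 : Y k * X k ^ 2 ^ k * (Y k)⁻¹ = X k ^ 2 ^ k := by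
        rw [hb', ← mul_assoc, cen b hb]; group
      rw [← conj_pow, e2, inv_pow, (ca _).mul_pow, inv_eq_iff_mul_eq_one] at e3
      rw [hU, (ca _).mul_pow, ← pow_mul, two_mul, pow_add, ← mul_assoc, e3]
  have other : ∀ j k, j ≠ k → ∀ e, (e = X j ∨ e = Y j) → e * U k * e⁻¹ = U k := by
    intro j k hjk e he
    have : ∀ z, (z = X k ∨ z = Y k) → f ⁅e, z⁆ = 1 := by
      intro z hz
      rw [map_commutatorElement]
      rcases he with rfl | rfl <;> rcases hz with rfl | rfl <;> simp only [hX, hY] <;>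
        rw [← QuotientGroup.mk'_apply, ← QuotientGroup.mk'_apply, ← map_commutatorElement,
          ← map_one (QuotientGroup.mk' V)] <;> congr 1 <;> ext i <;> simp only [comm_u, comm_v, xx, yy, Finsupp.single_apply,
          Finsupp.zero_apply, s_zero, one_u, one_v] <;> split_ifs <;> simp_all [s_zero]
    have h1 := cen _ (this _ (Or.inl rfl))
    have h2 := cen _ (this _ (Or.inr rfl))
    have e1 : e * X k * e⁻¹ = ⁅e, X k⁆ * X k := by simp [commutatorElement_def]
    have e2 : e * Y k * e⁻¹ = ⁅e, Y k⁆ * Y k := by simp [commutatorElement_def]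
    simp only [U]
    rw [conjugate_commutatorElement, e1, e2]
    generalize ⁅e, X k⁆ = c at h1
    generalize ⁅e, Y k⁆ = d at h2
    calc ⁅c * X k, d * Y k⁆ = c * (X k * d * Y k * (X k)⁻¹) * c⁻¹ * (Y k)⁻¹ * d⁻¹ := by
          simp [commutatorElement_def, mul_assoc]
      _ = X k * d * Y k * (X k)⁻¹ * (Y k)⁻¹ * d⁻¹ := by rw [← h1]; group
      _ = d * (X k * Y k * (X k)⁻¹ * (Y k)⁻¹) * d⁻¹ := by rw [h2]; group
      _ = _ := by rw [← h2]; simp [commutatorElement_def]
  have conj : ∀ k e, e * U k * e⁻¹ = U k ∨ e * U k * e⁻¹ = (U k)⁻¹ := by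
    intro k
    let S : Subgroup E :=
      { carrier := {e | e * U k * e⁻¹ = U k ∨ e * U k * e⁻¹ = (U k)⁻¹}
        one_mem' := Or.inl (by simp)
        mul_mem' := by
          intro a b ha hb
          have e : a * b * U k * (a * b)⁻¹ = a * (b * U k * b⁻¹) * a⁻¹ := by group
          have e' : a * (U k)⁻¹ * a⁻¹ = (a * U k * a⁻¹)⁻¹ := by group
          simp only [Set.mem_ofPred_eq] at ha hb ⊢
          rw [e]
          rcases hb with hb | hb <;> rw [hb]
          · exact ha
          · rw [e']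
            rcases ha with ha | ha <;> rw [ha] <;> simp
        inv_mem' := by
          intro a ha
          simp only [Set.mem_ofPred_eq] at ha ⊢
          rcases ha with ha | ha
          · left; nth_rewrite 1 [← ha]; group
          · right
            have e : U k = a * (U k)⁻¹ * a⁻¹ := by
              have := congrArg (·⁻¹) ha
              simpa [mul_assoc] using this.symm
            nth_rewrite 1 [e]; group }
    refine genE S (fun a ha => Or.inl (by rw [← cen a ha]; simp)) (fun j => ?_) (fun j => ?_)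
    · by_cases h : j = k
      · subst h; exact Or.inl (own j).1
      · exact Or.inl (other j k h _ (Or.inl rfl))
    · by_cases h : j = k
      · subst h; exact Or.inr (own j).2.1
      · exact Or.inl (other j k h _ (Or.inr rfl))
  have hcomm : ∀ a ∈ Set.range U, ∀ b ∈ Set.range U, a * b = b * a := by
    rintro _ ⟨j, rfl⟩ _ ⟨k, rfl⟩
    by_cases h : j = k
    · rw [h]
    · have c1 : Commute (X j) (U k) := mul_inv_eq_iff_eq_mul.1 (other j k h _ (Or.inl rfl))
      have c2 : Commute (Y j) (U k) := mul_inv_eq_iff_eq_mul.1 (other j k h _ (Or.inr rfl))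
      exact (((c1.mul_left c2).mul_left c1.inv_left).mul_left c2.inv_left).eq
  let D := Subgroup.closure (Set.range U)
  have hDn : D.Normal := ⟨by
    intro d hd e
    induction hd using Subgroup.closure_induction with
    | mem a ha =>
      obtain ⟨k, rfl⟩ := ha
      have : U k ∈ D := Subgroup.subset_closure ⟨k, rfl⟩
      rcases conj k e with h | h <;> rw [h]
      exacts [this, D.inv_mem this]
    | one => simp
    | mul a b _ _ ha hb => simpa [mul_assoc] using D.mul_mem ha hb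
    | inv a _ ha => simpa [mul_assoc] using D.inv_mem ha⟩
  have hci := Subgroup.isMulCommutative_closure hcomm
  let _ : CommGroup D := { (inferInstance : Group D) with mul_comm := hci.is_comm.comm }
  let u : ℕ → D := fun k => ⟨U k, Subgroup.subset_closure ⟨k, rfl⟩⟩
  let δ : (ℕ →₀ ℤ) →+ Additive D :=
    Finsupp.liftAddHom fun k => zmultiplesHom _ (Additive.ofMul (u k))
  have hδ1 : ∀ k n, δ (Finsupp.single k n) = n • Additive.ofMul (u k) := by
    intro k n; simp [δ]
  have hδf : ∀ m, f ((δ m).toMul : D) = QuotientGroup.mk (xx ((2 : ℤ) • m)) := by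
    intro m
    induction m using Finsupp.induction_linear with
    | zero => simp only [map_zero, smul_zero]; exact map_one f
    | add a b ha hb =>
      rw [map_add, toMul_add, Subgroup.coe_mul, map_mul, ha, hb, smul_add, xx_add,
        QuotientGroup.mk_mul]
    | single k n =>
      rw [hδ1, toMul_zsmul, toMul_ofMul, SubgroupClass.coe_zpow, map_zpow, fU,
        ← QuotientGroup.mk_zpow, ← xx_zsmul]
      simp [mul_comm]
  have hδs : ∀ d ∈ D, ∃ m, ((δ m).toMul : D) = d := by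
    intro d hd
    induction hd using Subgroup.closure_induction with
    | mem a ha =>
      obtain ⟨k, rfl⟩ := ha
      exact ⟨Finsupp.single k 1, by rw [hδ1]; simp [u]⟩
    | one => exact ⟨0, by simp⟩
    | mul a b _ _ ha hb =>
      obtain ⟨m, rfl⟩ := ha
      obtain ⟨n, rfl⟩ := hb
      exact ⟨m + n, by simp⟩
    | inv a _ ha =>
      obtain ⟨m, rfl⟩ := ha
      exact ⟨-m, by simp⟩
  have hgD : g ∈ D := by
    revert hg
    apply (show (⊤ : Subgroup E).lowerCentralSeries 2 ≤ D from ?_)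
    rw [Subgroup.lowerCentralSeries_succ, Subgroup.commutator_le]
    intro a ha b _
    have := Subgroup.mem_map_of_mem f ha
    rw [lcs_map f hf, ← lcs_map (QuotientGroup.mk' V) (QuotientGroup.mk'_surjective V)] at this
    obtain ⟨h, hh, e⟩ := this
    have hh' := lcs_le 0 hh
    obtain ⟨m, hm⟩ : ∃ m : ℕ →₀ ℤ, h = xx ((2 : ℤ) • m) := by
      refine ⟨h.u.mapRange (· / 2) (by simp), ?_⟩
      ext k
      · have : (2 : ℤ) ∣ h.u k := by simpa using hh'.2 k
        simp only [xx, Finsupp.smul_apply, Finsupp.mapRange_apply, smul_eq_mul]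
        omega
      · rw [hh'.1]; rfl
    have e2 : f ((((δ m).toMul : D) : E)⁻¹ * a) = 1 := by
      rw [map_mul, map_inv, hδf, ← e, hm]; simp
    have hd := ((δ m).toMul : D).2
    generalize (((δ m).toMul : D) : E) = d at e2 hd
    have e3 : ⁅a, b⁆ = d * (b * d⁻¹ * b⁻¹) := by
      calc ⁅a, b⁆ = d * ((d⁻¹ * a) * b) * a⁻¹ * b⁻¹ := by simp [commutatorElement_def, mul_assoc]
        _ = d * (b * (d⁻¹ * a)) * a⁻¹ * b⁻¹ := by rw [cen _ e2]
        _ = _ := by group
    rw [e3]
    exact D.mul_mem hd (hDn.conj_mem _ (D.inv_mem hd) b)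
  obtain ⟨m, rfl⟩ := hδs g hgD
  rw [hδf, QuotientGroup.eq_one_iff] at h1
  have h2 : δ m = 0 := by
    rw [← Finsupp.sum_single m, Finsupp.sum, map_sum]
    refine Finset.sum_eq_zero fun k _ => ?_
    obtain ⟨c, h3, h4⟩ := h1 k
    have hc0 : c = 0 := by simpa [xx] using h3
    simp only [hc0, xx, Finsupp.smul_apply, smul_eq_mul, mul_zero, add_zero, pow_succ'] at h4
    obtain ⟨t, ht⟩ := Int.dvd_of_mul_dvd_mul_left two_ne_zero h4
    have : u k ^ 2 ^ k = 1 := Subtype.ext (own k).2.2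
    rw [hδ1, ht, mul_comm, mul_smul, ← ofMul_zpow]
    have e : u k ^ ((2 : ℤ) ^ k) = 1 := by
      rw [← this, ← zpow_natCast]; simp
    rw [e]; simp
  rw [h2]; rfl

theorem resnil_E {E : Type} [Group E] (f : E →* H ⧸ V) (hf : Function.Surjective f)
    (hc : f.ker ≤ Subgroup.center E) (g : E) (hg : g ≠ 1) :
    ∃ (K : Type) (_ : Group K) (φ : E →* K), Group.IsNilpotent K ∧ φ g ≠ 1 := by
  obtain ⟨n, hn⟩ : ∃ n, g ∉ (⊤ : Subgroup E).lowerCentralSeries n := by
    by_contra hcon
    push Not at hcon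
    refine hg (key f hf hc g (hcon 2) (resnil_G _ fun n => ?_))
    rw [← lcs_map f hf]
    exact Subgroup.mem_map_of_mem f (hcon n)
  refine ⟨E ⧸ (⊤ : Subgroup E).lowerCentralSeries n, inferInstance, QuotientGroup.mk' _, ?_, ?_⟩
  · rw [Subgroup.nilpotent_iff_lowerCentralSeries]
    refine ⟨n, ?_⟩
    rw [← lcs_map _ (QuotientGroup.mk'_surjective _), Subgroup.map_eq_bot_iff,
      QuotientGroup.ker_mk']
  · exact fun h => hn ((QuotientGroup.eq_one_iff g).1 h)

end Pool.Agent.KS6_69.RN
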